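import Pool.Agent.H57.CN.Defs
import Pool.Agent.H57.LH.ExRows

/-!
# Names of the classes of a chain of equivalence relations: basic facts
-/

set_option autoImplicit false
set_option linter.unusedVariables false

namespace Pool.Agent.H57.CN

open Pool.Agent.H68.BP Pool.Agent.H58.SF Pool.Agent.H53.NR
open Pool.Agent.H53.GC (strOn sigOf)
open Pool.Agent.H57.AR (tp ty Ty)
open Pool.Agent.H57.LH (Hmg tp_iff)
open Pool.Agent.H44.KR (HB Amg Tyi TpOn LcN)
open Pool.Agent.H72.CH
open Function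

section agr

variable {W : Type} {m : ℕ}

open Classical in
/-- the number of the first entries in which `w` and `w'` agree -/
noncomputable def agl (w w' : Fin m → W) : ℕ :=
  ((Finset.range (m + 1)).filter (fun j => Agr j w w')).sup id

theorem agr_mono {w w' : Fin m → W} {j k : ℕ} (h : j ≤ k) (hk : Agr k w w') : Agr j w w' :=
  fun i hi => hk i (lt_of_lt_of_le hi h)

theorem agr_zero (w w' : Fin m → W) : Agr 0 w w' := fun i hi => absurd hi (Nat.not_lt_zero _)

theorem agl_le (w w' : Fin m → W) : agl w w' ≤ m := by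
  classical
  refine Finset.sup_le fun j hj => ?_
  have h1 := (Finset.mem_filter.1 hj).1
  exact Nat.lt_succ_iff.1 (Finset.mem_range.1 h1)

theorem agr_agl (w w' : Fin m → W) : Agr (agl w w') w w' := by
  classical
  have hne : ((Finset.range (m + 1)).filter (fun j => Agr j w w')).Nonempty :=
    ⟨0, Finset.mem_filter.2 ⟨Finset.mem_range.2 (Nat.succ_pos m), agr_zero w w'⟩⟩
  obtain ⟨j, hj, he⟩ := Finset.exists_mem_eq_sup _ hne id
  have h1 : agl w w' = j := he
  rw [h1]
  exact (Finset.mem_filter.1 hj).2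

theorem le_agl {w w' : Fin m → W} {j : ℕ} (hj : j ≤ m) : j ≤ agl w w' ↔ Agr j w w' := by
  classical
  constructor
  · intro h
    exact agr_mono h (agr_agl w w')
  · intro h
    exact Finset.le_sup (f := id) (Finset.mem_filter.2
      ⟨Finset.mem_range.2 (Nat.lt_succ_of_le hj), h⟩)

theorem agr_sym {w w' : Fin m → W} {j : ℕ} (h : Agr j w w') : Agr j w' w :=
  fun i hi => (h i hi).symm

theorem agr_trans {w w' w'' : Fin m → W} {j : ℕ} (h : Agr j w w') (h' : Agr j w' w'') :
    Agr j w w'' := fun i hi => (h i hi).trans (h' i hi)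

theorem agr_eq {w w' : Fin m → W} (h : Agr m w w') : w = w' := funext fun i => h i i.2

theorem plev_agl : PLev m (agl : (Fin m → W) → (Fin m → W) → ℕ) where
  le := agl_le
  self := fun w => le_antisymm (agl_le w w) ((le_agl le_rfl).2 fun i _ => rfl)
  sym := fun w w' => le_antisymm
    ((le_agl (agl_le w w')).2 (agr_sym (agr_agl w w')))
    ((le_agl (agl_le w' w)).2 (agr_sym (agr_agl w' w)))
  ult := fun w w' w'' => by
    refine (le_agl (le_trans (min_le_left _ _) (agl_le w w'))).2 ?_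
    exact agr_trans (agr_mono (min_le_left _ _) (agr_agl w w'))
      (agr_mono (min_le_right _ _) (agr_agl w' w''))

theorem agl_eq {w w' : Fin m → W} (h : agl w w' = m) : w = w' := by
  have h1 := agr_agl w w'
  rw [h] at h1
  exact agr_eq h1

end agr

section levels

variable {V : Type} {ρ : Sig} {𝔹 : Str ρ V} {m : ℕ} {lv : V → V → ℕ}

/-- levels depend only on the types of pairs -/
theorem lv_tp (h : HV 𝔹 m lv) {J : Type} {x y : J → V} (hxy : tp 𝔹 x = tp 𝔹 y) (a b : J) :
    lv (x a) (x b) = lv (y a) (y b) := by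
  refine h.inv ![x a, x b] ![y a, y b] ?_
  have h1 := tp_iff.1 hxy
  refine tp_iff.2 ⟨fun i j => ?_, fun l z => ?_⟩
  · fin_cases i <;> fin_cases j
    · exact h1.1 a a
    · exact h1.1 a b
    · exact h1.1 b a
    · exact h1.1 b b
  · have h2 := h1.2 l (fun i => if z i = 0 then a else b)
    have h3 : ∀ u : J → V, (fun i => (![u a, u b] : Fin 2 → V) (z i)) =
        fun i => u (if z i = 0 then a else b) := by
      intro u
      funext i
      rcases h4 : z i with ⟨k, hk⟩
      interval_cases k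
      · rfl
      · rfl
    rw [h3 x, h3 y]
    exact h2

/-- types of subtuples -/
theorem tp_comp {W W' : Type} {u v : W → V} (h : tp 𝔹 u = tp 𝔹 v) (z : W' → W) :
    tp 𝔹 (fun a => u (z a)) = tp 𝔹 (fun a => v (z a)) :=
  tp_iff.2 ⟨fun a b => (tp_iff.1 h).1 (z a) (z b), fun l w => (tp_iff.1 h).2 l (fun i => z (w i))⟩

/-- Types of elements in classes depend only on the type of a tuple of elements of the classes. -/
theorem clt (hV : HV 𝔹 m lv) {J : Type} [Finite J] (h : J → ℕ) (y y' x : J → V)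
    (hy : tp 𝔹 y = tp 𝔹 y') (hx : ∀ a, h a ≤ lv (x a) (y a)) :
    ∃ x' : J → V, (∀ a, h a ≤ lv (x' a) (y' a)) ∧ tp 𝔹 x' = tp 𝔹 x := by
  obtain ⟨u, hu, hu'⟩ := hV.hmg (J ⊕ J) (Set.range Sum.inl) (Sum.elim y x) (Sum.elim y' x) (by
    have h1 := tp_iff.1 hy
    constructor
    · rintro _ ⟨a, rfl⟩ _ ⟨b, rfl⟩
      exact h1.1 a b
    · intro l z hz
      choose w hw using hz
      have h2 : ∀ v : J → V, (fun i => (Sum.elim v x : J ⊕ J → V) (z i)) = fun i => v (w i) := by
        intro v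
        funext i
        rw [← hw i]
        rfl
      rw [h2 y, h2 y']
      exact h1.2 l w)
  refine ⟨fun a => u (Sum.inr a), fun a => ?_, ?_⟩
  · have h3 := lv_tp hV hu (Sum.inr a) (Sum.inl a)
    have h4 : u (Sum.inl a) = y' a := hu' _ ⟨a, rfl⟩
    rw [h4] at h3
    rw [h3]
    exact hx a
  · exact tp_comp hu Sum.inr

end levels

section relations

variable {V W : Type} {ρ : Sig} {𝔹 : Str ρ V} {m R : ℕ} {lv : V → V → ℕ}

/-- the relations depend only on the classes -/
theorem NR_class (hV : HV 𝔹 m lv) {s : W → Fin m} {κ κ' : (Fin m → W) → Fin m → V}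
    (h : ∀ z h, (∀ i, i ≤ h → s (z i) = i) → (h : ℕ) + 1 ≤ lv (κ z h) (κ' z h))
    (i : NI ρ m R) (z : NA ρ m R i → W) : NR 𝔹 lv s κ i z ↔ NR 𝔹 lv s κ' i z := by
  rcases i with i | p
  · exact Iff.rfl
  · constructor
    · rintro ⟨h1, x, h2, h3⟩
      refine ⟨h1, x, fun a => ?_, h3⟩
      exact le_trans (le_min (h2 a) (h _ _ (h1 a))) (hV.lev.pl.ult _ _ _)
    · rintro ⟨h1, x, h2, h3⟩
      refine ⟨h1, x, fun a => ?_, h3⟩
      refine le_trans (le_min (h2 a) ?_) (hV.lev.pl.ult _ _ _)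
      rw [hV.lev.pl.sym]
      exact h _ _ (h1 a)

/-- the relations depend only on the types of elements of the classes -/
theorem NR_type (hV : HV 𝔹 m lv) {W' : Type} {s : W → Fin m} {s' : W' → Fin m}
    {κ : (Fin m → W) → Fin m → V} {κ' : (Fin m → W') → Fin m → V}
    (p : (Fin R → Fin m) × Ty ρ (Fin R)) (z : Fin R × Fin m → W) (z' : Fin R × Fin m → W')
    (hs : ∀ q, s (z q) = s' (z' q))
    (h : (∀ a i, i ≤ p.1 a → s (z (a, i)) = i) →
      tp 𝔹 (fun a => κ (fun i => z (a, i)) (p.1 a)) =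
        tp 𝔹 (fun a => κ' (fun i => z' (a, i)) (p.1 a))) :
    NR 𝔹 lv s κ (Sum.inr p) z ↔ NR 𝔹 lv s' κ' (Sum.inr p) z' := by
  constructor
  · rintro ⟨h1, x, h2, h3⟩
    obtain ⟨x', h5, h6⟩ := clt hV (fun a => (p.1 a : ℕ) + 1) _ _ x (h h1) h2
    exact ⟨fun a i hi => by rw [← hs]; exact h1 a i hi, x', h5, h6.trans h3⟩
  · rintro ⟨h1, x, h2, h3⟩
    have h1' : ∀ a i, i ≤ p.1 a → s (z (a, i)) = i := fun a i hi => by
      rw [hs]
      exact h1 a i hi
    obtain ⟨x', h5, h6⟩ := clt hV (fun a => (p.1 a : ℕ) + 1) _ _ x (h h1').symm h2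
    exact ⟨h1', x', h5, h6.trans h3⟩

/-- the types of long tuples are determined by the types of the tuples of length `r` -/
theorem tp_of_small {J : Type} {u v : J → V} (r : ℕ) (hr : ∀ l, ρ.ar l ≤ r) (h2 : 2 ≤ r)
    (h : ∀ z : Fin r → J, tp 𝔹 (fun i => u (z i)) = tp 𝔹 (fun i => v (z i))) :
    tp 𝔹 u = tp 𝔹 v := by
  refine tp_iff.2 ⟨fun a b => ?_, fun l z => ?_⟩
  · have h3 := (tp_iff.1 (h fun i => if (i : ℕ) = 0 then a else b)).1 ⟨0, by omega⟩ ⟨1, by omega⟩
    simpa using h3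
  · rcases Nat.eq_zero_or_pos (ρ.ar l) with h0 | h0
    · have h4 : (fun i => u (z i)) = fun i => v (z i) :=
        funext fun i => absurd (lt_of_lt_of_eq i.2 h0) (Nat.not_lt_zero _)
      exact iff_of_eq (congrArg _ h4)
    · have h5 := (tp_iff.1 (h fun i => if hi : (i : ℕ) < ρ.ar l then z ⟨i, hi⟩ else z ⟨0, h0⟩)).2 l
        (fun i => ⟨i, lt_of_lt_of_le i.2 (hr l)⟩)
      have h6 : ∀ w : J → V, (fun i : Fin (ρ.ar l) => w (if hi : ((⟨i, lt_of_lt_of_le i.2 (hr l)⟩ :
          Fin r) : ℕ) < ρ.ar l then z ⟨_, hi⟩ else z ⟨0, h0⟩)) = fun i => w (z i) := by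
        intro w
        funext i
        rw [dif_pos i.2]
      rw [h6 u, h6 v] at h5
      exact h5

end relations

end Pool.Agent.H57.CN
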