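import Pool.Agent.H57.CN.Asm
import Pool.Agent.H67.CN.RLX
import Pool.Agent.H38.CN.EXF
import Pool.Agent.H26.CN2.EXD
import Pool.Agent.H13.CN.AMN
import Pool.Agent.H26.CN2.KNH
import Pool.Agent.H42.CN.KNA
import Pool.Agent.H42.CN.KNO
import Pool.Agent.H4.CN.FRA
import Pool.Agent.H95.CN.AMD
import Pool.Agent.H44.CN.BET
import Pool.Agent.H34.CN.SRT
import Pool.Agent.H61.CN.INV
import Pool.Agent.H51.CN.UNI
import Pool.Agent.H40.CN.EXR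
import Pool.Agent.H38.CN.LCB
import Pool.Agent.H36.CN.FLO
import Pool.Agent.H51.CN.BLE
import Pool.Agent.H7.CN.LCA

/-!
# Names of the classes of a chain of equivalence relations: the names structure exists, no hypotheses
-/

set_option autoImplicit false
set_option linter.unusedVariables false

namespace Pool.Agent.H57.CN

open Pool.Agent.H68.BP Pool.Agent.H58.SF Pool.Agent.H53.NR
open Pool.Agent.H44.FB (Bl)
open Pool.Agent.H72.CH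

/-- all rows -/
theorem rows_all : Rows :=
  ⟨Pool.Agent.H26.CN2.pf_KNH,
   Pool.Agent.H42.CN.pf_KNA (Pool.Agent.H13.CN.pf_AMN Pool.Agent.H67.CN.pf_RLX),
   Pool.Agent.H42.CN.pf_KNO (Pool.Agent.H38.CN.pf_EXF Pool.Agent.H67.CN.pf_RLX),
   Pool.Agent.H4.CN.FRA.pf_FRA,
   Pool.Agent.H95.CN.pf_AMD,
   Pool.Agent.H44.CN.pf_BET (Pool.Agent.H42.CN.pf_KNO (Pool.Agent.H38.CN.pf_EXF Pool.Agent.H67.CN.pf_RLX)),
   Pool.Agent.H34.CN.pf_SRT,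
   Pool.Agent.H61.CN.pf_INV,
   Pool.Agent.H51.CN.pf_UNI (Pool.Agent.H26.CN2.pf_EXD Pool.Agent.H67.CN.pf_RLX),
   Pool.Agent.H40.CN.pf_EXR (Pool.Agent.H38.CN.pf_EXF Pool.Agent.H67.CN.pf_RLX),
   Pool.Agent.H7.CN.pf_LCA Pool.Agent.H67.CN.pf_RLX,
   Pool.Agent.H38.CN.pf_LCB,
   Pool.Agent.H36.CN.pf_FLO,
   Pool.Agent.H51.CN.pf_BLE⟩

/-- The names structure exists, and it has no blind sorts. -/
theorem names_exist {V : Type} {ρ : Sig} {𝔹 : Str ρ V} {m : ℕ} {lv : V → V → ℕ}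
    (hV : HV 𝔹 m lv) (hm : 1 ≤ m) :
    ∃ (δ : Sig) (𝔻 : Str δ ℕ) (st : ℕ → Fin m) (β : (Fin m → ℕ) → V), Nm 𝔹 m lv 𝔻 st β ∧
      ∀ (σ : Sig) (𝔸 : Str σ V), Bl (NmS 𝔸 st β) 𝔻 = ∅ := nm_exists rows_all hV hm


end Pool.Agent.H57.CN
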