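import Pool.Agent.H57.CN.Targets2
import Pool.Agent.H26.LH.LNC

/-!
# Names of the classes of a chain of equivalence relations: the names structure exists
-/

set_option autoImplicit false
set_option linter.unusedVariables false

namespace Pool.Agent.H57.CN

open Pool.Agent.H68.BP Pool.Agent.H58.SF Pool.Agent.H53.NR
open Pool.Agent.H53.GC (strOn sigOf)
open Pool.Agent.H57.AR (tp ty Ty)
open Pool.Agent.H57.LH (Hmg)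
open Pool.Agent.H44.FB (Bl)
open Pool.Agent.H44.KR (HB Amg Tyi TpOn LcN)
open Pool.Agent.H72.CH
open Function

/-- the rows -/
structure Rows : Prop where
  knh : T_KNH
  kna : T_KNA
  kno : T_KNO
  fra : T_FRA
  amd : T_AMD
  bet : T_BET
  srt : T_SRT
  inv : T_INV
  uni : T_UNI
  exr : T_EXR
  lca : T_LCA
  lcb : T_LCB
  flo : T_FLO
  ble : T_BLE

/-- The names structure exists, and it has no blind sorts. -/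
theorem nm_exists (h : Rows) {V : Type} {ρ : Sig} {𝔹 : Str ρ V} {m : ℕ} {lv : V → V → ℕ}
    (hV : HV 𝔹 m lv) (hm : 1 ≤ m) :
    ∃ (δ : Sig) (𝔻 : Str δ ℕ) (st : ℕ → Fin m) (β : (Fin m → ℕ) → V), Nm 𝔹 m lv 𝔻 st β ∧
      ∀ (σ : Sig) (𝔸 : Str σ V), Bl (NmS 𝔸 st β) 𝔻 = ∅ := by
  obtain ⟨R₀, hR₀⟩ := h.kna V ρ 𝔹 m lv hV hm
  let R := max R₀ (ρ.width + 2)
  have hR : ρ.width + 2 ≤ R := le_max_right _ _
  have hK : KH (KN 𝔹 m lv R) := by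
    refine ⟨fun X Y _ f 𝕐 hf hY => h.knh V ρ 𝔹 m lv R X Y f 𝕐 hf hY, ?_, ?_⟩
    · intro W _ A B 𝕏 𝕐 h1 h2 h3 h4
      exact hR₀ R (le_max_left _ _) W A B 𝕏 𝕐 h1 h2 h3 h4
    · obtain ⟨𝕏, h1, -⟩ := h.kno V ρ 𝔹 m lv R hV ⟨0, hm⟩
      exact ⟨𝕏, h1⟩
  obtain ⟨𝔻, hL⟩ := h.fra _ _ hK
  obtain ⟨st, β, c, hN⟩ := h.bet V ρ 𝔹 m lv hV hm R hR 𝔻 hL
  obtain ⟨N, hNN⟩ := h.lca V ρ 𝔹 m lv hV hm R hR 𝔻 st β c hN
    (h.exr V ρ 𝔹 m lv hV hm R hR 𝔻 st β c hL hN)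
  have hlc : LcN 𝔻 (N + 1) := h.lcb V ρ 𝔹 m lv hV hm R hR 𝔻 st β c hN hL N hNN
  refine ⟨_, 𝔻, st, β, ⟨⟨⟨0⟩, ?_, h.amd _ _ 𝔻 hK hL, ?_⟩, inferInstance,
    h.srt V ρ 𝔹 m lv hV hm R 𝔻 st β c hN, h.flo V ρ 𝔹 m lv hV hm R 𝔻 st β c hN, ?_, ?_, ?_⟩,
    h.ble V ρ 𝔹 m lv hV hm R hR 𝔻 st β c hL hN⟩
  · intro l
    have h3 : ∀ t : NI ρ m R, 1 ≤ Nat.card (NA ρ m R t) := by
      rintro (i | p)
      · show 1 ≤ Nat.card Unit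
        simp
      · show 1 ≤ Nat.card (Fin R × Fin m)
        have : Nonempty (Fin R × Fin m) := ⟨(⟨0, by omega⟩, ⟨0, hm⟩)⟩
        exact Nat.one_le_iff_ne_zero.2 Nat.card_pos.ne'
    exact h3 _
  · exact Pool.Agent.H26.LH.pf_LNC ℕ _ 𝔻 (N + 1) inferInstance hlc
  · intro w w' j hj
    exact hN.exa w.1 w'.1 w.2 w'.2 (fun _ => trivial) (fun _ => trivial) j hj
  · exact h.inv V ρ 𝔹 m lv hV hm R hR 𝔻 st β c hN
  · exact h.uni V ρ 𝔹 m lv hV hm R hR 𝔻 st β c hL hN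

end Pool.Agent.H57.CN
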