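import Pool.Agent.H72.CH.Defs

/-!
# Names of the classes of a chain of equivalence relations: definitions
-/

set_option autoImplicit false
set_option linter.unusedVariables false

namespace Pool.Agent.H57.CN

open Pool.Agent.H68.BP Pool.Agent.H58.SF Pool.Agent.H53.NR
open Pool.Agent.H53.GC (strOn sigOf)
open Pool.Agent.H57.AR (tp ty Ty)
open Pool.Agent.H57.LH (Hmg)
open Pool.Agent.H44.KR (HB Amg Tyi TpOn LcN)
open Pool.Agent.H72.CH
open Function

/-! ### Relative local completions for types of tuples -/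

section rel

variable {V : Type} {ρ : Sig}

/-- Relative local completions for finite sets with exact chains, with the bounds `r` and `M`. The
tuple `z a` has to be mapped to a tuple of the type of `y a`. -/
def RLX (𝔹 : Str ρ V) (m : ℕ) (lv : V → V → ℕ) (r M : ℕ) : Prop :=
  ∀ (X Λ : Type) [Finite X] (lam : X → X → ℕ) (z : Λ → Fin r → X) (y : Λ → Fin r → V),
    PLev m lam → (∀ x x', lam x x' = m → x = x') →
    (∀ a i j, lv (y a i) (y a j) = lam (z a i) (z a j)) →
    (∀ U : Finset X, U.card ≤ M → ∃ f : X → V,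
      (∀ x ∈ U, ∀ x' ∈ U, lam x x' ≤ lv (f x) (f x')) ∧
      ∀ a, (∀ i, z a i ∈ U) → tp 𝔹 (fun i => f (z a i)) = tp 𝔹 (y a)) →
    ∃ f : X → V, (∀ x x', lv (f x) (f x') = lam x x') ∧
      ∀ a, tp 𝔹 (fun i => f (z a i)) = tp 𝔹 (y a)

end rel

/-! ### Flags and classes -/

section names

variable {V W : Type} {ρ : Sig} {m R : ℕ}

/-- `w` is a flag -/
def IsFl (s : W → Fin m) (w : Fin m → W) : Prop := ∀ i, s (w i) = i

/-- `g` is exact on the flags with entries in `A`. -/
def ExOn (lv : V → V → ℕ) (s : W → Fin m) (g : (Fin m → W) → V) (A : Set W) : Prop :=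
  ∀ w w' : Fin m → W, IsFl s w → IsFl s w' → (∀ i, w i ∈ A) → (∀ i, w' i ∈ A) → ∀ j ≤ m,
    (j ≤ lv (g w) (g w') ↔ Agr j w w')

/-- the sorts of names and dummy names -/
def sD (s : W → Fin m) : W ⊕ Fin m → Fin m := Sum.elim s id

/-- the set `A` with the dummy names -/
def dm (A : Set W) : Set (W ⊕ Fin m) := {a | ∀ x, a = Sum.inl x → x ∈ A}

/-- the partial flag given by the first `h + 1` entries of `z`, completed by dummy names -/
def cp (z : Fin m → W) (h : Fin m) : Fin m → W ⊕ Fin m :=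
  fun i => if i ≤ h then Sum.inl (z i) else Sum.inr i

/-- the elements in the classes of the partial flags: completions by dummy names -/
def dk (g : (Fin m → W ⊕ Fin m) → V) (z : Fin m → W) (h : Fin m) : V := g (cp z h)

/-- the elements in the classes of the partial flags: completions by the names `c` -/
def bk (β : (Fin m → W) → V) (c : Fin m → W) (z : Fin m → W) (h : Fin m) : V :=
  β (fun i => if i ≤ h then z i else c i)

/-- the symbols of the names structure -/
abbrev NI (ρ : Sig) (m R : ℕ) : Type := Fin m ⊕ ((Fin R → Fin m) × Ty ρ (Fin R))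

/-- the places of the symbols -/
abbrev NA (ρ : Sig) (m R : ℕ) : NI ρ m R → Type
  | Sum.inl _ => Unit
  | Sum.inr _ => Fin R × Fin m

instance (ρ : Sig) (m R : ℕ) : (s : NI ρ m R) → Finite (NA ρ m R s)
  | Sum.inl _ => inferInstanceAs (Finite Unit)
  | Sum.inr _ => inferInstanceAs (Finite (Fin R × Fin m))

/-- the signature of the names structure -/
noncomputable abbrev NS (ρ : Sig) (m R : ℕ) : Sig := sigOf (NI ρ m R) (NA ρ m R)

/-- The relations of the names structure: sorts, and types of elements in the classes of partial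
flags, where the classes are given by the elements `κ z h`. -/
def NR (𝔹 : Str ρ V) (lv : V → V → ℕ) (s : W → Fin m) (κ : (Fin m → W) → Fin m → V) :
    (i : NI ρ m R) → (NA ρ m R i → W) → Prop
  | Sum.inl i => fun z => s (z ()) = i
  | Sum.inr p => fun z => (∀ a i, i ≤ p.1 a → s (z (a, i)) = i) ∧
      ∃ x : Fin R → V, (∀ a, (p.1 a : ℕ) + 1 ≤ lv (x a) (κ (fun i => z (a, i)) (p.1 a))) ∧
        tp 𝔹 x = p.2

/-- the class of the finite names structures -/
def KN (𝔹 : Str ρ V) (m : ℕ) (lv : V → V → ℕ) (R : ℕ) (X : Type) (𝕏 : Str (NS ρ m R) X) : Prop :=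
  ∃ (s : X → Fin m) (g : (Fin m → X ⊕ Fin m) → V), ExOn lv (sD s) g Set.univ ∧
    𝕏 = strOn (NR 𝔹 lv s (dk g))

/-- The names structure with the sorts `st`, the elements `β` of the flags and the names `c` for
completions. -/
structure NmB (𝔹 : Str ρ V) (m : ℕ) (lv : V → V → ℕ) (R : ℕ) (𝔻 : Str (NS ρ m R) ℕ)
    (st : ℕ → Fin m) (β : (Fin m → ℕ) → V) (c : Fin m → ℕ) : Prop where
  cst : ∀ i, st (c i) = i
  exa : ExOn lv st β Set.univ
  str : 𝔻 = strOn (NR 𝔹 lv st (bk β c))

end names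

/-! ### Limits -/

section limits

variable {W : Type} {δ : Sig}

/-- `𝕏` and `𝕐` agree on `A`. -/
def AgO (A : Set W) (𝕏 𝕐 : Str δ W) : Prop := ∀ l (z : Fin (δ.ar l) → W), (∀ i, z i ∈ A) →
  (𝕏 l z ↔ 𝕐 l z)

/-- the hypotheses on a class of finite structures -/
structure KH (K : (X : Type) → Str δ X → Prop) : Prop where
  her : ∀ (X Y : Type) [Finite Y] (f : X → Y) (𝕐 : Str δ Y), Injective f → K Y 𝕐 → K X (pull 𝕐 f)
  amg : ∀ (W : Type) [Finite W] (A B : Set W) (𝕏 𝕐 : Str δ W), (∀ x, x ∈ A ∨ x ∈ B) →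
    K A (pull 𝕏 Subtype.val) → K B (pull 𝕐 Subtype.val) → AgO (A ∩ B) 𝕏 𝕐 →
    ∃ ℤ' : Str δ W, K W ℤ' ∧ AgO A ℤ' 𝕏 ∧ AgO B ℤ' 𝕐
  one : ∃ 𝕏 : Str δ Unit, K Unit 𝕏

/-- `𝔻` is the limit of the class `K`. -/
structure Lim (K : (X : Type) → Str δ X → Prop) (𝔻 : Str δ ℕ) : Prop where
  age : ∀ (X : Type) [Finite X] (f : X → ℕ), Injective f → K X (pull 𝔻 f)
  ext : ∀ (W : Type) [Finite W] (A : Set W) (x : W → ℕ) (𝕎 : Str δ W), Set.InjOn x A → K W 𝕎 →
    (∀ l (z : Fin (δ.ar l) → W), (∀ i, z i ∈ A) → (𝔻 l (fun i => x (z i)) ↔ 𝕎 l z)) →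
    ∃ y : W → ℕ, Injective y ∧ (∀ a ∈ A, y a = x a) ∧ pull 𝔻 y = 𝕎

end limits

end Pool.Agent.H57.CN
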