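import Pool.Agent.H57.CN.Basics

/-!
# Names of the classes of a chain of equivalence relations: targets
-/

set_option autoImplicit false
set_option linter.unusedVariables false

namespace Pool.Agent.H57.CN

open Pool.Agent.H68.BP Pool.Agent.H58.SF Pool.Agent.H53.NR
open Pool.Agent.H53.GC (strOn sigOf)
open Pool.Agent.H57.AR (tp ty Ty)
open Pool.Agent.H57.LH (Hmg)
open Pool.Agent.H44.KR (HB Amg Tyi TpOn LcN)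
open Pool.Agent.H72.CH
open Function

/-! ### Relative local completions -/

/-- relative local completions for types of tuples -/
def T_RLX : Prop :=
  ∀ (V : Type) (ρ : Sig) (𝔹 : Str ρ V) (m : ℕ) (lv : V → V → ℕ), HV 𝔹 m lv →
    ∀ r : ℕ, ∃ M : ℕ, RLX 𝔹 m lv r M

/-- exact maps of flags exist -/
def T_EXF : Prop :=
  ∀ (V : Type) (ρ : Sig) (𝔹 : Str ρ V) (m : ℕ) (lv : V → V → ℕ), HV 𝔹 m lv →
    ∀ (W : Type) [Finite W] (s : W → Fin m), ∃ g : (Fin m → W) → V, ExOn lv s g Set.univ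

/-- extension of exact maps to dummy names -/
def T_EXD : Prop :=
  ∀ (V : Type) (ρ : Sig) (𝔹 : Str ρ V) (m : ℕ) (lv : V → V → ℕ), HV 𝔹 m lv →
    ∀ (W : Type) [Finite W] (s : W → Fin m) (g : (Fin m → W) → V), ExOn lv s g Set.univ →
      ∃ g' : (Fin m → W ⊕ Fin m) → V, ExOn lv (sD s) g' Set.univ ∧
        tp 𝔹 (fun w : Fl s => g' (fun i => Sum.inl (w.1 i))) = tp 𝔹 (fun w : Fl s => g w.1)

/-- amalgamation of names -/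
def T_AMN : Prop :=
  ∀ (V : Type) (ρ : Sig) (𝔹 : Str ρ V) (m : ℕ) (lv : V → V → ℕ), HV 𝔹 m lv →
    ∃ R₀ : ℕ, ∀ R, R₀ ≤ R → ∀ (W : Type) [Finite W] (A B : Set W) (s : W → Fin m)
      (g₁ g₂ : (Fin m → W ⊕ Fin m) → V), ExOn lv (sD s) g₁ (dm A) → ExOn lv (sD s) g₂ (dm B) →
      (∀ x, x ∈ A ∨ x ∈ B) →
      (∀ (i : NI ρ m R) (z : NA ρ m R i → W), (∀ q, z q ∈ A ∧ z q ∈ B) →
        (NR 𝔹 lv s (dk g₁) i z ↔ NR 𝔹 lv s (dk g₂) i z)) →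
      ∃ g : (Fin m → W ⊕ Fin m) → V, ExOn lv (sD s) g Set.univ ∧
        (∀ (i : NI ρ m R) (z : NA ρ m R i → W), (∀ q, z q ∈ A) →
          (NR 𝔹 lv s (dk g) i z ↔ NR 𝔹 lv s (dk g₁) i z)) ∧
        ∀ (i : NI ρ m R) (z : NA ρ m R i → W), (∀ q, z q ∈ B) →
          (NR 𝔹 lv s (dk g) i z ↔ NR 𝔹 lv s (dk g₂) i z)

/-! ### The class of the names structures -/

/-- the class is hereditary -/
def T_KNH : Prop :=
  ∀ (V : Type) (ρ : Sig) (𝔹 : Str ρ V) (m : ℕ) (lv : V → V → ℕ) (R : ℕ) (X Y : Type)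
    (f : X → Y) (𝕐 : Str (NS ρ m R) Y), Injective f → KN 𝔹 m lv R Y 𝕐 →
    KN 𝔹 m lv R X (pull 𝕐 f)

/-- the class has amalgamation -/
def T_KNA : Prop :=
  ∀ (V : Type) (ρ : Sig) (𝔹 : Str ρ V) (m : ℕ) (lv : V → V → ℕ), HV 𝔹 m lv → 1 ≤ m →
    ∃ R₀ : ℕ, ∀ R, R₀ ≤ R → ∀ (W : Type) [Finite W] (A B : Set W) (𝕏 𝕐 : Str (NS ρ m R) W),
      (∀ x, x ∈ A ∨ x ∈ B) → KN 𝔹 m lv R A (pull 𝕏 Subtype.val) →
      KN 𝔹 m lv R B (pull 𝕐 Subtype.val) → AgO (A ∩ B) 𝕏 𝕐 →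
      ∃ ℤ' : Str (NS ρ m R) W, KN 𝔹 m lv R W ℤ' ∧ AgO A ℤ' 𝕏 ∧ AgO B ℤ' 𝕐

/-- structures with a given sort -/
def T_KNO : Prop :=
  ∀ (V : Type) (ρ : Sig) (𝔹 : Str ρ V) (m : ℕ) (lv : V → V → ℕ) (R : ℕ), HV 𝔹 m lv →
    ∀ i : Fin m, ∃ 𝕏 : Str (NS ρ m R) Unit, KN 𝔹 m lv R Unit 𝕏 ∧
      ∀ (s : Unit → Fin m) (κ : (Fin m → Unit) → Fin m → V),
        𝕏 = strOn (NR 𝔹 lv s κ) → s () = i

/-! ### Limits -/

/-- limits exist -/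
def T_FRA : Prop :=
  ∀ (δ : Sig) (K : (X : Type) → Str δ X → Prop), KH K → ∃ 𝔻 : Str δ ℕ, Lim K 𝔻

/-- limits have no algebraicity -/
def T_AMD : Prop :=
  ∀ (δ : Sig) (K : (X : Type) → Str δ X → Prop) (𝔻 : Str δ ℕ), KH K → Lim K 𝔻 → Amg 𝔻

/-! ### The names structure -/

/-- the elements of the flags -/
def T_BET : Prop :=
  ∀ (V : Type) (ρ : Sig) (𝔹 : Str ρ V) (m : ℕ) (lv : V → V → ℕ), HV 𝔹 m lv → 1 ≤ m →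
    ∀ R, ρ.width + 2 ≤ R → ∀ 𝔻 : Str (NS ρ m R) ℕ, Lim (KN 𝔹 m lv R) 𝔻 →
      ∃ st β c, NmB 𝔹 m lv R 𝔻 st β c

/-- the types of names -/
def T_SRT : Prop :=
  ∀ (V : Type) (ρ : Sig) (𝔹 : Str ρ V) (m : ℕ) (lv : V → V → ℕ), HV 𝔹 m lv → 1 ≤ m →
    ∀ R (𝔻 : Str (NS ρ m R) ℕ) st β c, NmB 𝔹 m lv R 𝔻 st β c →
      ∀ p q : ℕ, ty 𝔻 p = ty 𝔻 q ↔ st p = st q

/-- types of names give types of flags -/
def T_INV : Prop :=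
  ∀ (V : Type) (ρ : Sig) (𝔹 : Str ρ V) (m : ℕ) (lv : V → V → ℕ), HV 𝔹 m lv → 1 ≤ m →
    ∀ R, ρ.width + 2 ≤ R → ∀ (𝔻 : Str (NS ρ m R) ℕ) st β c, NmB 𝔹 m lv R 𝔻 st β c →
      ∀ (J : Type) (x y : J → ℕ), tp 𝔻 x = tp 𝔻 y → ∀ (K : Type) (w : K → Fin m → J),
        (∀ k i, st (x (w k i)) = i) →
        tp 𝔹 (fun k => β (fun i => x (w k i))) = tp 𝔹 (fun k => β (fun i => y (w k i)))

/-- universality -/
def T_UNI : Prop :=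
  ∀ (V : Type) (ρ : Sig) (𝔹 : Str ρ V) (m : ℕ) (lv : V → V → ℕ), HV 𝔹 m lv → 1 ≤ m →
    ∀ R, ρ.width + 2 ≤ R → ∀ (𝔻 : Str (NS ρ m R) ℕ) st β c, Lim (KN 𝔹 m lv R) 𝔻 →
      NmB 𝔹 m lv R 𝔻 st β c → ∀ (J : Type) [Finite J] (s : J → Fin m) (g : Fl s → V),
        (∀ w w' : Fl s, ∀ j ≤ m, j ≤ lv (g w) (g w') ↔ Agr j w.1 w'.1) →
        ∃ x : J → ℕ, Injective x ∧ (∀ a, st (x a) = s a) ∧
          tp 𝔹 (fun w : Fl s => β (fun i => x (w.1 i))) = tp 𝔹 g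

/-- generic elements of the classes of partial flags -/
def T_EXR : Prop :=
  ∀ (V : Type) (ρ : Sig) (𝔹 : Str ρ V) (m : ℕ) (lv : V → V → ℕ), HV 𝔹 m lv → 1 ≤ m →
    ∀ R, ρ.width + 2 ≤ R → ∀ (𝔻 : Str (NS ρ m R) ℕ) st β c, Lim (KN 𝔹 m lv R) 𝔻 →
      NmB 𝔹 m lv R 𝔻 st β c → ∀ (z : Fin R × Fin m → ℕ) (h : Fin R → Fin m),
        (∀ a i, i ≤ h a → st (z (a, i)) = i) →
        ∃ x : Fin R → V, (∀ a, (h a : ℕ) + 1 ≤ lv (x a) (bk β c (fun i => z (a, i)) (h a))) ∧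
          ∀ a b, a ≠ b → lv (x a) (x b) = min (agl (fun i => z (a, i)) (fun i => z (b, i)))
            (min ((h a : ℕ) + 1) ((h b : ℕ) + 1))

/-- local completions for names: the map of the flags -/
def T_LCA : Prop :=
  ∀ (V : Type) (ρ : Sig) (𝔹 : Str ρ V) (m : ℕ) (lv : V → V → ℕ), HV 𝔹 m lv → 1 ≤ m →
    ∀ R, ρ.width + 2 ≤ R → ∀ (𝔻 : Str (NS ρ m R) ℕ) st β c, NmB 𝔹 m lv R 𝔻 st β c →
      (∀ (z : Fin R × Fin m → ℕ) (h : Fin R → Fin m), (∀ a i, i ≤ h a → st (z (a, i)) = i) →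
        ∃ x : Fin R → V, (∀ a, (h a : ℕ) + 1 ≤ lv (x a) (bk β c (fun i => z (a, i)) (h a))) ∧
          ∀ a b, a ≠ b → lv (x a) (x b) = min (agl (fun i => z (a, i)) (fun i => z (b, i)))
            (min ((h a : ℕ) + 1) ((h b : ℕ) + 1))) →
      ∃ N : ℕ, ∀ (W Λ : Type) [Finite W] [Finite Λ] (s : W → Fin m) (D : Λ → Set W)
        (S : Λ → (i : NI ρ m R) → (NA ρ m R i → W) → Prop),
        (∀ U : Finset W, U.card ≤ N → ∃ f : W → ℕ, (∀ x ∈ U, st (f x) = s x) ∧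
          ∀ a, Set.InjOn f {x | x ∈ D a ∧ x ∈ U} ∧ ∀ i (z : NA ρ m R i → W),
            (∀ q, z q ∈ D a ∧ z q ∈ U) →
            (NR 𝔹 lv st (bk β c) i (fun q => f (z q)) ↔ S a i z)) →
        ∃ g : (Fin m → W ⊕ Fin m) → V, ExOn lv (sD s) g Set.univ ∧
          ∀ a i (z : NA ρ m R i → W), (∀ q, z q ∈ D a) → (NR 𝔹 lv s (dk g) i z ↔ S a i z)

/-- local completions for names -/
def T_LCB : Prop :=
  ∀ (V : Type) (ρ : Sig) (𝔹 : Str ρ V) (m : ℕ) (lv : V → V → ℕ), HV 𝔹 m lv → 1 ≤ m →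
    ∀ R, ρ.width + 2 ≤ R → ∀ (𝔻 : Str (NS ρ m R) ℕ) st β c, NmB 𝔹 m lv R 𝔻 st β c →
      Lim (KN 𝔹 m lv R) 𝔻 → ∀ N : ℕ, (∀ (W Λ : Type) [Finite W] [Finite Λ] (s : W → Fin m) (D : Λ → Set W)
        (S : Λ → (i : NI ρ m R) → (NA ρ m R i → W) → Prop),
        (∀ U : Finset W, U.card ≤ N → ∃ f : W → ℕ, (∀ x ∈ U, st (f x) = s x) ∧
          ∀ a, Set.InjOn f {x | x ∈ D a ∧ x ∈ U} ∧ ∀ i (z : NA ρ m R i → W),
            (∀ q, z q ∈ D a ∧ z q ∈ U) →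
            (NR 𝔹 lv st (bk β c) i (fun q => f (z q)) ↔ S a i z)) →
        ∃ g : (Fin m → W ⊕ Fin m) → V, ExOn lv (sD s) g Set.univ ∧
          ∀ a i (z : NA ρ m R i → W), (∀ q, z q ∈ D a) → (NR 𝔹 lv s (dk g) i z ↔ S a i z)) →
      LcN 𝔻 (N + 1)

end Pool.Agent.H57.CN
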