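import Pool.Agent.H57.CN.Targets
import Pool.Agent.H44.FB.Defs

/-!
# Names of the classes of a chain of equivalence relations: targets, continued
-/

set_option autoImplicit false
set_option linter.unusedVariables false

namespace Pool.Agent.H57.CN

open Pool.Agent.H68.BP Pool.Agent.H58.SF Pool.Agent.H53.NR
open Pool.Agent.H53.GC (strOn sigOf)
open Pool.Agent.H57.AR (tp ty Ty)
open Pool.Agent.H44.FB (Bl)
open Pool.Agent.H72.CH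
open Function

/-- All flags have one type. -/
def T_FLO : Prop :=
  ∀ (V : Type) (ρ : Sig) (𝔹 : Str ρ V) (m : ℕ) (lv : V → V → ℕ), HV 𝔹 m lv → 1 ≤ m →
    ∀ R (𝔻 : Str (NS ρ m R) ℕ) st β c, NmB 𝔹 m lv R 𝔻 st β c →
      ∀ w w' : Fl st, tp 𝔻 w.1 = tp 𝔻 w'.1

/-- There are no blind sorts. -/
def T_BLE : Prop :=
  ∀ (V : Type) (ρ : Sig) (𝔹 : Str ρ V) (m : ℕ) (lv : V → V → ℕ), HV 𝔹 m lv → 1 ≤ m →
    ∀ R, ρ.width + 2 ≤ R → ∀ (𝔻 : Str (NS ρ m R) ℕ) st β c, Lim (KN 𝔹 m lv R) 𝔻 →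
      NmB 𝔹 m lv R 𝔻 st β c → ∀ (σ : Sig) (𝔸 : Str σ V), Bl (NmS 𝔸 st β) 𝔻 = ∅

end Pool.Agent.H57.CN
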